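import Pool.Agent.H22.HD.Stmts
import Pool.Agent.H13.Heat.GBb

/-!
Project HD (helper22), module CN1: the norm of the gradient for `1 < p < 2`
(Stroock-Varopoulos and Hoelder).
-/

set_option autoImplicit false

open MeasureTheory ProbabilityTheory
open Pool.Agent.H58.Heat Pool.Agent.H13.Heat

namespace Pool.Agent.H88.HD

variable {n : ℕ}

theorem eg_rpow {f : E n → ℝ} (hf : EG f) {p : ℝ} (hp : 0 < p) : EG (fun x => |f x| ^ p) := by
  obtain ⟨C, hC0, hC⟩ := eg_nonneg hf
  refine eg_of_bound (A := C ^ p) (B := C * p) fun x => ?_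
  have h1 : |f x| ≤ C * Real.exp (C * ‖x‖) := by simpa [Real.norm_eq_abs] using hC x
  have h2 : |f x| ^ p ≤ (C * Real.exp (C * ‖x‖)) ^ p :=
    Real.rpow_le_rpow (abs_nonneg _) h1 hp.le
  rw [Real.mul_rpow hC0 (Real.exp_pos _).le, ← Real.exp_mul] at h2
  rw [Real.norm_eq_abs, abs_of_nonneg (Real.rpow_nonneg (abs_nonneg _) _)]
  refine h2.trans (le_of_eq ?_)
  congr 2
  ring

theorem memLp_of_eg {f : E n → ℝ} (hc : Continuous f) (hf : EG f) {p : ℝ} (hp : 0 < p) :
    MemLp f (ENNReal.ofReal p) (gm n) := by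
  rw [← integrable_norm_rpow_iff hc.aestronglyMeasurable (by simpa using hp) (by simp)]
  rw [ENNReal.toReal_ofReal hp.le]
  simp only [Real.norm_eq_abs]
  exact GB1 _ ((hc.abs.rpow_const fun x => Or.inr hp.le).aestronglyMeasurable) (eg_rpow hf hp)

/-- the weight -/
noncomputable def ww (p e y : ℝ) : ℝ := (y ^ 2 + e) ^ ((p - 2) / 2)

theorem ww_pos (p : ℝ) {e : ℝ} (he : 0 < e) (y : ℝ) : 0 < ww p e y := by
  unfold ww; positivity

theorem ww_le {p e : ℝ} (hp : p < 2) (he : 0 < e) (y : ℝ) : ww p e y ≤ e ^ ((p - 2) / 2) := by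
  unfold ww
  refine Real.rpow_le_rpow_of_nonpos he (by nlinarith [sq_nonneg y]) (by linarith)

theorem ww_cont (p : ℝ) {e : ℝ} (he : 0 < e) : Continuous (ww p e) := by
  unfold ww
  refine Continuous.rpow_const (by fun_prop) fun y => Or.inl ?_
  positivity

/-- derivative of the weight -/
theorem ww_hasDeriv (p : ℝ) {e : ℝ} (he : 0 < e) (y : ℝ) :
    HasDerivAt (ww p e) ((p - 2) * y * (y ^ 2 + e) ^ ((p - 2) / 2 - 1)) y := by
  have h1 : HasDerivAt (fun y : ℝ => y ^ 2 + e) (2 * y) y := by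
    simpa using ((hasDerivAt_pow 2 y).add_const e)
  have h2 := h1.rpow_const (p := (p - 2) / 2) (Or.inl (by positivity))
  unfold ww
  convert h2 using 1
  ring

/-- the function `φ_e` -/
noncomputable def fi (p e y : ℝ) : ℝ := ww p e y * y

noncomputable def fid (p e y : ℝ) : ℝ :=
  (p - 2) * y * (y ^ 2 + e) ^ ((p - 2) / 2 - 1) * y + ww p e y

theorem fi_hasDeriv (p : ℝ) {e : ℝ} (he : 0 < e) (y : ℝ) :
    HasDerivAt (fi p e) (fid p e y) y := by
  have h : HasDerivAt (fun y => ww p e y * y)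
      ((p - 2) * y * (y ^ 2 + e) ^ ((p - 2) / 2 - 1) * y + ww p e y * 1) y :=
    (ww_hasDeriv p he y).mul (hasDerivAt_id' y)
  rw [mul_one] at h
  exact h

theorem fid_eq (p : ℝ) {e : ℝ} (he : 0 < e) (y : ℝ) :
    fid p e y = ww p e y * (1 - (2 - p) * (y ^ 2 / (y ^ 2 + e))) := by
  have h0 : 0 < y ^ 2 + e := by positivity
  have h1 : (y ^ 2 + e) ^ ((p - 2) / 2 - 1) = ww p e y / (y ^ 2 + e) := by
    unfold ww
    rw [Real.rpow_sub_one h0.ne']
  unfold fid
  rw [h1]
  field_simp
  ring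

theorem fid_ge {p e : ℝ} (h2 : p < 2) (he : 0 < e) (y : ℝ) :
    (p - 1) * ww p e y ≤ fid p e y := by
  have h0 : 0 < y ^ 2 + e := by positivity
  rw [fid_eq p he, mul_comm]
  have h3 : y ^ 2 / (y ^ 2 + e) ≤ 1 := by
    rw [div_le_one h0]; linarith
  refine mul_le_mul_of_nonneg_left ?_ (ww_pos p he y).le
  nlinarith

theorem fid_nonneg {p e : ℝ} (h1 : 1 < p) (h2 : p < 2) (he : 0 < e) (y : ℝ) : 0 ≤ fid p e y :=
  (mul_nonneg (by linarith) (ww_pos p he y).le).trans (fid_ge h2 he y)

theorem fid_le {p e : ℝ} (h2 : p < 2) (he : 0 < e) (y : ℝ) :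
    fid p e y ≤ e ^ ((p - 2) / 2) := by
  have h0 : 0 < y ^ 2 + e := by positivity
  rw [fid_eq p he]
  have h3 : 0 ≤ y ^ 2 / (y ^ 2 + e) := by positivity
  calc ww p e y * (1 - (2 - p) * (y ^ 2 / (y ^ 2 + e))) ≤ ww p e y * 1 := by
        refine mul_le_mul_of_nonneg_left ?_ (ww_pos p he y).le
        nlinarith
    _ ≤ _ := by rw [mul_one]; exact ww_le h2 he y

theorem fid_cont (p : ℝ) {e : ℝ} (he : 0 < e) : Continuous (fid p e) := by
  unfold fid
  have h1 : Continuous (fun y : ℝ => (y ^ 2 + e) ^ ((p - 2) / 2 - 1)) :=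
    Continuous.rpow_const (by fun_prop) fun y => Or.inl (by positivity)
  have h2 := ww_cont p he
  fun_prop

theorem fi_abs_le {p e : ℝ} (h2 : p < 2) (he : 0 < e) (y : ℝ) :
    |fi p e y| ≤ |y| ^ (p - 1) := by
  by_cases hy : y = 0
  · subst hy
    simp only [fi, mul_zero, abs_zero]
    exact Real.rpow_nonneg le_rfl _
  have hy' : 0 < |y| := abs_pos.2 hy
  have h3 : ww p e y ≤ |y| ^ (p - 2) := by
    have h4 : (|y| ^ 2) ^ ((p - 2) / 2) = |y| ^ (p - 2) := by
      rw [← Real.rpow_natCast, ← Real.rpow_mul hy'.le]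
      congr 1
      push_cast
      ring
    rw [← h4]
    unfold ww
    refine Real.rpow_le_rpow_of_nonpos (by positivity) ?_ (by linarith)
    rw [sq_abs]
    linarith
  rw [fi, abs_mul, abs_of_pos (ww_pos p he y)]
  calc ww p e y * |y| ≤ |y| ^ (p - 2) * |y| := mul_le_mul_of_nonneg_right h3 hy'.le
    _ = |y| ^ (p - 1) := by
        rw [← Real.rpow_add_one hy'.ne']
        congr 1
        ring

/-- step 1: Stroock-Varopoulos with a regularised weight -/
theorem sv {p e : ℝ} (h1 : 1 < p) (h2 : p < 2) (he : 0 < e) (g : E n → ℝ) (hg : IsPoly g) :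
    (p - 1) * ∫ x, ww p e (g x) * gd g g x ∂gm n ≤
      (∫ x, |NN g x| ^ p ∂gm n) ^ (1 / p) * (∫ x, |g x| ^ p ∂gm n) ^ ((p - 1) / p) := by
  obtain ⟨hgc, hge, hgd, hgp, hgN⟩ := GB5 g hg
  have hgc' : Continuous g := hgc.continuous
  have hg1 : ContDiff ℝ 1 g := hgc.of_le le_top
  have hgdiff : Differentiable ℝ g := hg1.differentiable (by norm_num)
  have hNc : Continuous (NN g) := (GB5 _ hgN).1.continuous
  have hNe : EG (NN g) := (GB5 _ hgN).2.1
  have hpdc : ∀ i, Continuous (pd g i) := fun i => (GB5 _ (hgp i)).1.continuous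
  have hpde : ∀ i, EG (pd g i) := fun i => (GB5 _ (hgp i)).2.1
  -- the test function
  have hfi1 : ContDiff ℝ 1 (fi p e) := by
    rw [contDiff_one_iff_deriv]
    refine ⟨fun y => (fi_hasDeriv p he y).differentiableAt, ?_⟩
    have : deriv (fi p e) = fid p e := funext fun y => (fi_hasDeriv p he y).deriv
    rw [this]
    exact fid_cont p he
  have hu : ContDiff ℝ 1 (fun x => fi p e (g x)) := hfi1.comp hg1
  have hu0 : EG (fun x => fi p e (g x)) := by
    refine eg_mono (eg_mul (eg_const (e ^ ((p - 2) / 2))) hge) fun x => ?_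
    rw [fi, norm_mul, norm_mul]
    refine mul_le_mul_of_nonneg_right ?_ (norm_nonneg _)
    rw [Real.norm_eq_abs, Real.norm_eq_abs, abs_of_pos (ww_pos p he _),
      abs_of_pos (Real.rpow_pos_of_pos he _)]
    exact ww_le h2 he _
  have hfu : ∀ x, fderiv ℝ (fun x => fi p e (g x)) x = fid p e (g x) • fderiv ℝ g x := by
    intro x
    exact ((fi_hasDeriv p he (g x)).comp_hasFDerivAt x (hgdiff x).hasFDerivAt).fderiv
  have hu1 : EG (fderiv ℝ (fun x => fi p e (g x))) := by
    refine eg_mono (eg_mul (eg_const (e ^ ((p - 2) / 2))) (eg_norm hgd)) fun x => ?_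
    rw [hfu, norm_smul, norm_mul, norm_norm]
    refine mul_le_mul_of_nonneg_right ?_ (norm_nonneg _)
    rw [Real.norm_eq_abs, Real.norm_eq_abs, abs_of_nonneg (fid_nonneg h1 h2 he _),
      abs_of_pos (Real.rpow_pos_of_pos he _)]
    exact fid_le h2 he _
  have key := GB2 g (fun x => fi p e (g x)) hg hu hu0 hu1
  have hgdu : ∀ x, gd g (fun x => fi p e (g x)) x = fid p e (g x) * gd g g x := by
    intro x
    simp only [gd, pd, hfu, Finset.mul_sum]
    refine Finset.sum_congr rfl fun i _ => ?_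
    simp only [FunLike.coe_smul, Pi.smul_apply, smul_eq_mul]
    ring
  simp only [hgdu] at key
  have hgg0 : ∀ x, 0 ≤ gd g g x := fun x => Finset.sum_nonneg fun i _ => mul_self_nonneg _
  have hggc : Continuous (gd g g) := by
    unfold gd
    exact continuous_finsetSum _ fun i _ => (hpdc i).mul (hpdc i)
  have hgge : EG (gd g g) := by
    unfold gd
    exact eg_sum _ fun i _ => eg_mul (hpde i) (hpde i)
  have i1 : Integrable (fun x => ww p e (g x) * gd g g x) (gm n) := by
    refine GB1 _ (((ww_cont p he).comp hgc').mul hggc).aestronglyMeasurable ?_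
    refine eg_mono (eg_mul (eg_const (e ^ ((p - 2) / 2))) hgge) fun x => ?_
    rw [norm_mul, norm_mul]
    refine mul_le_mul_of_nonneg_right ?_ (norm_nonneg _)
    rw [Real.norm_eq_abs, Real.norm_eq_abs, abs_of_pos (ww_pos p he _),
      abs_of_pos (Real.rpow_pos_of_pos he _)]
    exact ww_le h2 he _
  have i2 : Integrable (fun x => fid p e (g x) * gd g g x) (gm n) := by
    refine GB1 _ (((fid_cont p he).comp hgc').mul hggc).aestronglyMeasurable ?_
    refine eg_mono (eg_mul (eg_const (e ^ ((p - 2) / 2))) hgge) fun x => ?_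
    rw [norm_mul, norm_mul]
    refine mul_le_mul_of_nonneg_right ?_ (norm_nonneg _)
    rw [Real.norm_eq_abs, Real.norm_eq_abs, abs_of_nonneg (fid_nonneg h1 h2 he _),
      abs_of_pos (Real.rpow_pos_of_pos he _)]
    exact fid_le h2 he _
  have s1 : (p - 1) * ∫ x, ww p e (g x) * gd g g x ∂gm n ≤
      ∫ x, fid p e (g x) * gd g g x ∂gm n := by
    rw [← integral_const_mul]
    refine integral_mono (i1.const_mul _) i2 fun x => ?_
    simp only
    rw [← mul_assoc]
    exact mul_le_mul_of_nonneg_right (fid_ge h2 he _) (hgg0 x)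
  rw [← key] at s1
  refine s1.trans ?_
  -- Hoelder
  have hpq : p.HolderConjugate (p / (p - 1)) := by
    rw [Real.holderConjugate_iff]
    refine ⟨h1, ?_⟩
    field_simp
    ring
  have hgp1 : Continuous (fun x => |g x| ^ (p - 1)) :=
    hgc'.abs.rpow_const fun x => Or.inr (by linarith)
  have s2 : ∫ x, NN g x * fi p e (g x) ∂gm n ≤ ∫ x, |NN g x| * |g x| ^ (p - 1) ∂gm n := by
    refine integral_mono (GB1 _ ((hNc.mul (hfi1.continuous.comp hgc')).aestronglyMeasurable)
      (eg_mul hNe hu0)) (GB1 _ ((hNc.abs.mul hgp1).aestronglyMeasurable)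
      (eg_mul (eg_norm hNe) (eg_rpow hge (by linarith)))) fun x => ?_
    simp only
    calc NN g x * fi p e (g x) ≤ |NN g x * fi p e (g x)| := le_abs_self _
      _ = |NN g x| * |fi p e (g x)| := abs_mul _ _
      _ ≤ |NN g x| * |g x| ^ (p - 1) :=
        mul_le_mul_of_nonneg_left (fi_abs_le h2 he _) (abs_nonneg _)
  refine s2.trans ?_
  have s3 := integral_mul_le_Lp_mul_Lq_of_nonneg (μ := gm n) hpq
    (f := fun x => |NN g x|) (g := fun x => |g x| ^ (p - 1))
    (Filter.Eventually.of_forall fun x => abs_nonneg _)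
    (Filter.Eventually.of_forall fun x => Real.rpow_nonneg (abs_nonneg _) _)
    (memLp_of_eg hNc.abs (eg_norm hNe) (by linarith))
    (memLp_of_eg hgp1 (eg_rpow hge (by linarith)) (div_pos (by linarith) (by linarith)))
  refine s3.trans (le_of_eq ?_)
  have e1 : ∀ x, (|g x| ^ (p - 1)) ^ (p / (p - 1)) = |g x| ^ p := by
    intro x
    rw [← Real.rpow_mul (abs_nonneg _)]
    congr 1
    field_simp [show p - 1 ≠ 0 by linarith]
  simp only [e1]
  congr 2
  rw [one_div_div]

/-- step 2: Hoelder for the gradient -/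
theorem ho {p e : ℝ} (h1 : 1 < p) (h2 : p < 2) (he : 0 < e) (g : E n → ℝ) (hg : IsPoly g) :
    ∫ x, (Real.sqrt (gd g g x)) ^ p ∂gm n ≤
      (∫ x, ww p e (g x) * gd g g x ∂gm n) ^ (p / 2) *
        (∫ x, |g x| ^ p ∂gm n + e ^ (p / 2)) ^ ((2 - p) / 2) := by
  obtain ⟨hgc, hge, hgd, hgp, hgN⟩ := GB5 g hg
  have hgc' : Continuous g := hgc.continuous
  have hpdc : ∀ i, Continuous (pd g i) := fun i => (GB5 _ (hgp i)).1.continuous
  have hpde : ∀ i, EG (pd g i) := fun i => (GB5 _ (hgp i)).2.1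
  have hgg0 : ∀ x, 0 ≤ gd g g x := fun x => Finset.sum_nonneg fun i _ => mul_self_nonneg _
  have hggc : Continuous (gd g g) := by
    unfold gd
    exact continuous_finsetSum _ fun i _ => (hpdc i).mul (hpdc i)
  have hgge : EG (gd g g) := by
    unfold gd
    exact eg_sum _ fun i _ => eg_mul (hpde i) (hpde i)
  have hwc : Continuous (fun x => ww p e (g x)) := (ww_cont p he).comp hgc'
  have hwe : EG (fun x => ww p e (g x) * gd g g x) := by
    refine eg_mono (eg_mul (eg_const (e ^ ((p - 2) / 2))) hgge) fun x => ?_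
    rw [norm_mul, norm_mul]
    refine mul_le_mul_of_nonneg_right ?_ (norm_nonneg _)
    rw [Real.norm_eq_abs, Real.norm_eq_abs, abs_of_pos (ww_pos p he _),
      abs_of_pos (Real.rpow_pos_of_pos he _)]
    exact ww_le h2 he _
  have hpq : (2 / p).HolderConjugate (2 / (2 - p)) := by
    rw [Real.holderConjugate_iff]
    refine ⟨by rw [lt_div_iff₀ (by linarith)]; linarith, ?_⟩
    have : (2 - p) ≠ 0 := by linarith
    field_simp
    ring
  -- the two factors
  have hFc : Continuous (fun x => (ww p e (g x) * gd g g x) ^ (p / 2)) :=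
    (hwc.mul hggc).rpow_const fun x => Or.inr (by linarith)
  have hqc : Continuous (fun x => (g x ^ 2 + e)) := (hgc'.pow 2).add continuous_const
  have hGc : Continuous (fun x => (g x ^ 2 + e) ^ (p * (2 - p) / 4)) :=
    hqc.rpow_const fun x => Or.inl (by positivity)
  have hqe : EG (fun x => g x ^ 2 + e) := by
    have := eg_add (eg_mul hge hge) (eg_const e)
    refine eg_mono this fun x => ?_
    rw [pow_two]
  have hw0 : ∀ x, 0 ≤ ww p e (g x) * gd g g x := fun x =>
    mul_nonneg (ww_pos p he _).le (hgg0 x)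
  have hFe : EG (fun x => (ww p e (g x) * gd g g x) ^ (p / 2)) := by
    have := eg_rpow hwe (p := p / 2) (by linarith)
    refine eg_mono this fun x => ?_
    rw [abs_of_nonneg (hw0 x)]
  have hGe : EG (fun x => (g x ^ 2 + e) ^ (p * (2 - p) / 4)) := by
    have := eg_rpow hqe (p := p * (2 - p) / 4) (by
      have : 0 < p * (2 - p) := mul_pos (by linarith) (by linarith)
      linarith)
    refine eg_mono this fun x => ?_
    rw [abs_of_nonneg (by positivity)]
  have s3 := integral_mul_le_Lp_mul_Lq_of_nonneg (μ := gm n) hpq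
    (f := fun x => (ww p e (g x) * gd g g x) ^ (p / 2))
    (g := fun x => (g x ^ 2 + e) ^ (p * (2 - p) / 4))
    (Filter.Eventually.of_forall fun x => Real.rpow_nonneg (hw0 x) _)
    (Filter.Eventually.of_forall fun x => Real.rpow_nonneg (by positivity) _)
    (memLp_of_eg hFc hFe (by
      have : 0 < p := by linarith
      positivity))
    (memLp_of_eg hGc hGe (div_pos (by norm_num) (by linarith)))
  -- the integrand
  have e0 : ∀ x, (ww p e (g x) * gd g g x) ^ (p / 2) * (g x ^ 2 + e) ^ (p * (2 - p) / 4) =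
      (Real.sqrt (gd g g x)) ^ p := by
    intro x
    have hq : 0 < g x ^ 2 + e := by positivity
    rw [Real.mul_rpow (ww_pos p he _).le (hgg0 x), ww, ← Real.rpow_mul hq.le, mul_right_comm,
      ← Real.rpow_add hq, Real.sqrt_eq_rpow, ← Real.rpow_mul (hgg0 x)]
    have : (p - 2) / 2 * (p / 2) + p * (2 - p) / 4 = 0 := by ring
    rw [this, Real.rpow_zero, one_mul]
    congr 1
    ring
  have e1 : ∀ x, ((ww p e (g x) * gd g g x) ^ (p / 2)) ^ (2 / p) = ww p e (g x) * gd g g x := by
    intro x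
    rw [← Real.rpow_mul (hw0 x)]
    have : p / 2 * (2 / p) = 1 := by
      have : p ≠ 0 := by linarith
      field_simp
    rw [this, Real.rpow_one]
  have e2 : ∀ x, ((g x ^ 2 + e) ^ (p * (2 - p) / 4)) ^ (2 / (2 - p)) =
      (g x ^ 2 + e) ^ (p / 2) := by
    intro x
    rw [← Real.rpow_mul (by positivity)]
    congr 1
    have : (2 - p) ≠ 0 := by linarith
    field_simp
    ring
  simp only [e0, e1, e2] at s3
  have e3 : 1 / (2 / p) = p / 2 := one_div_div _ _
  have e4 : 1 / (2 / (2 - p)) = (2 - p) / 2 := one_div_div _ _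
  rw [e3, e4] at s3
  refine s3.trans ?_
  refine mul_le_mul_of_nonneg_left ?_ (Real.rpow_nonneg (integral_nonneg hw0) _)
  refine Real.rpow_le_rpow (integral_nonneg fun x => Real.rpow_nonneg (by positivity) _) ?_
    (by linarith)
  have i3 : Integrable (fun x => |g x| ^ p) (gm n) :=
    GB1 _ ((hgc'.abs.rpow_const fun x => Or.inr (by linarith)).aestronglyMeasurable)
      (eg_rpow hge (by linarith))
  have e5 : ∫ x, |g x| ^ p ∂gm n + e ^ (p / 2) = ∫ x, (|g x| ^ p + e ^ (p / 2)) ∂gm n := by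
    rw [integral_add i3 (integrable_const _)]
    simp
  rw [e5]
  refine integral_mono (GB1 _ ((hqc.rpow_const fun x => Or.inl (by
      have : 0 < g x ^ 2 + e := by positivity
      exact this.ne')).aestronglyMeasurable) ?_) (i3.add (integrable_const _)) fun x => ?_
  · refine eg_mono (eg_rpow hqe (p := p / 2) (by linarith)) fun x => ?_
    rw [abs_of_nonneg (by positivity)]
  · simp only
    have h5 : |g x| ^ p = (g x ^ 2) ^ (p / 2) := by
      rw [← sq_abs, ← Real.rpow_natCast, ← Real.rpow_mul (abs_nonneg _)]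
      congr 1
      push_cast
      ring
    rw [h5]
    exact Real.rpow_add_le_add_rpow (sq_nonneg _) he.le (by linarith) (by linarith)

theorem cn1 : Pool.Agent.H22.HD.CN1Stmt := by
  intro p h1 h2 n g hg
  set A := ∫ x, |g x| ^ p ∂gm n with hA
  set B := ∫ x, |NN g x| ^ p ∂gm n with hB
  set D := ∫ x, (Real.sqrt (gd g g x)) ^ p ∂gm n with hD
  have hA0 : 0 ≤ A := integral_nonneg fun x => Real.rpow_nonneg (abs_nonneg _) _
  have hB0 : 0 ≤ B := integral_nonneg fun x => Real.rpow_nonneg (abs_nonneg _) _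
  have hgg0 : ∀ x, 0 ≤ gd g g x := fun x => Finset.sum_nonneg fun i _ => mul_self_nonneg _
  have hp0 : 0 < p := by linarith
  have hp1 : 0 < p - 1 := by linarith
  -- for every e
  have key : ∀ e : ℝ, 0 < e → D ≤ (1 / (p - 1) * (B ^ (1 / p) * A ^ ((p - 1) / p))) ^ (p / 2) *
      (A + e ^ (p / 2)) ^ ((2 - p) / 2) := by
    intro e he
    have s1 := sv h1 h2 he g hg
    have s2 := ho h1 h2 he g hg
    refine s2.trans ?_
    refine mul_le_mul_of_nonneg_right ?_ (Real.rpow_nonneg (by positivity) _)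
    refine Real.rpow_le_rpow (integral_nonneg fun x => mul_nonneg (ww_pos p he _).le (hgg0 x)) ?_
      (by linarith)
    rw [one_div, ← div_eq_inv_mul, le_div_iff₀ hp1, mul_comm]
    exact s1
  -- limit
  have lim : Filter.Tendsto (fun e : ℝ => (1 / (p - 1) * (B ^ (1 / p) * A ^ ((p - 1) / p))) ^ (p / 2)
      * (A + e ^ (p / 2)) ^ ((2 - p) / 2)) (nhdsWithin 0 (Set.Ioi 0))
      (nhds ((1 / (p - 1) * (B ^ (1 / p) * A ^ ((p - 1) / p))) ^ (p / 2)
      * (A + (0 : ℝ) ^ (p / 2)) ^ ((2 - p) / 2))) := by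
    have hc : Continuous (fun e : ℝ => (1 / (p - 1) * (B ^ (1 / p) * A ^ ((p - 1) / p))) ^ (p / 2)
      * (A + e ^ (p / 2)) ^ ((2 - p) / 2)) := by
      refine continuous_const.mul ?_
      refine Continuous.rpow_const ?_ fun e => Or.inr (by linarith)
      exact continuous_const.add (continuous_id.rpow_const fun e => Or.inr (by linarith))
    exact (hc.tendsto 0).mono_left nhdsWithin_le_nhds
  have h3 := ge_of_tendsto lim (Filter.eventually_of_mem self_mem_nhdsWithin fun e he => key e he)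
  rw [Real.zero_rpow (by linarith), add_zero] at h3
  refine h3.trans (le_of_eq ?_)
  rw [Real.mul_rpow (by positivity) (by positivity), Real.mul_rpow (by positivity) (by positivity),
    ← Real.rpow_mul hB0, ← Real.rpow_mul hA0, mul_assoc]
  congr 1
  rw [mul_assoc, mul_comm (A ^ (1 / 2 : ℝ))]
  have e1 : 1 / p * (p / 2) = 1 / 2 := by
    field_simp
  rw [e1]
  congr 1
  rcases hA0.eq_or_lt with h0 | h0
  · rw [← h0]
    have z1 : (0 : ℝ) ^ ((p - 1) / p * (p / 2)) = 0 := Real.zero_rpow (by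
      have : 0 < (p - 1) / p * (p / 2) := by positivity
      exact this.ne')
    have z2 : (0 : ℝ) ^ (1 / 2 : ℝ) = 0 := Real.zero_rpow (by norm_num)
    rw [z1, z2, zero_mul]
  · rw [← Real.rpow_add h0]
    congr 1
    field_simp
    ring

end Pool.Agent.H88.HD
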